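import Mathlib

set_option autoImplicit false

namespace Pool.Agent.Q250.Sand

/-- Cokernel of an integer matrix. -/
abbrev Coker {V : Type*} [Fintype V] (L : Matrix V V ℤ) : Type _ :=
  (V → ℤ) ⧸ LinearMap.range L.mulVecLin

/-- Reindexing a square integer matrix does not change the cokernel. -/
lemma coker_reindex {V W : Type*} [Fintype V] [Fintype W] (e : W ≃ V) (L : Matrix V V ℤ)
    (L' : Matrix W W ℤ) (h : ∀ i j, L (e i) (e j) = L' i j) :
    Nonempty (Coker L ≃+ Coker L') := by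
  refine ⟨(Submodule.Quotient.equiv (LinearMap.range L.mulVecLin) (LinearMap.range L'.mulVecLin)
    (LinearEquiv.funCongrLeft ℤ ℤ e) ?_).toAddEquiv⟩
  ext x
  constructor
  · rintro ⟨_, ⟨z, rfl⟩, rfl⟩
    refine ⟨fun i => z (e i), ?_⟩
    funext i
    simp only [Matrix.mulVecLin_apply, Matrix.mulVec, dotProduct]
    change _ = ∑ j, L (e i) j * z j
    rw [← Equiv.sum_comp e]
    exact Finset.sum_congr rfl fun j _ => by rw [h]
  · rintro ⟨z, rfl⟩
    refine ⟨L.mulVecLin (fun v => z (e.symm v)), ⟨_, rfl⟩, ?_⟩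
    funext i
    simp only [Matrix.mulVecLin_apply, Matrix.mulVec, dotProduct]
    change ∑ j, L (e i) j * z (e.symm j) = _
    rw [← Equiv.sum_comp e]
    exact Finset.sum_congr rfl fun j _ => by rw [h, Equiv.symm_apply_apply]

/-- Unimodular equivalence gives isomorphic cokernels. -/
lemma coker_unimodular {V : Type*} [Fintype V] [DecidableEq V] (L L' P P' Q Q' : Matrix V V ℤ)
    (hP : P' * P = 1) (hP2 : P * P' = 1) (h : P * L * Q = L') (hQ : Q * Q' = 1) :
    Nonempty (Coker L ≃+ Coker L') := by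
  refine ⟨(Submodule.Quotient.equiv (LinearMap.range L.mulVecLin) (LinearMap.range L'.mulVecLin)
    (LinearEquiv.ofLinearMap P.mulVecLin P'.mulVecLin
    (by rw [← Matrix.mulVecLin_mul, hP2, Matrix.mulVecLin_one])
    (by rw [← Matrix.mulVecLin_mul, hP, Matrix.mulVecLin_one])) ?_).toAddEquiv⟩
  ext x
  constructor
  · rintro ⟨_, ⟨z, rfl⟩, rfl⟩
    refine ⟨Q'.mulVec z, ?_⟩
    change L'.mulVec (Q'.mulVec z) = P.mulVec (L.mulVec z)
    rw [← h, Matrix.mulVec_mulVec, Matrix.mul_assoc, hQ, Matrix.mul_one, Matrix.mulVec_mulVec]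
  · rintro ⟨z, rfl⟩
    refine ⟨L.mulVec (Q.mulVec z), ⟨_, rfl⟩, ?_⟩
    change P.mulVec (L.mulVec (Q.mulVec z)) = L'.mulVec z
    rw [← h, Matrix.mulVec_mulVec, Matrix.mulVec_mulVec, Matrix.mul_assoc]

/-- Isomorphic groups have isomorphic torsion subgroups. -/
lemma torsion_equiv {A B : Type*} [AddCommGroup A] [AddCommGroup B] (f : A ≃+ B) :
    Nonempty (AddCommGroup.torsion A ≃+ AddCommGroup.torsion B) := by
  refine ⟨AddEquiv.mk' (Equiv.subtypeEquiv f.toEquiv fun x => ?_) ?_⟩
  · change IsOfFinAddOrder x ↔ IsOfFinAddOrder (f x)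
    rw [isOfFinAddOrder_iff_nsmul_eq_zero, isOfFinAddOrder_iff_nsmul_eq_zero]
    constructor
    · rintro ⟨n, hn, h⟩
      exact ⟨n, hn, by rw [← map_nsmul, h, map_zero]⟩
    · rintro ⟨n, hn, h⟩
      refine ⟨n, hn, f.injective ?_⟩
      rw [map_nsmul, h, map_zero]
  · intro x y
    ext
    exact map_add f _ _

/-- Comparison of `2`-torsion: if the torsion subgroups of `A` and `B` are isomorphic, the
`2`-torsion of `A` is covered by a type `α`, and `β` injects into the `2`-torsion of `B`, then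
`β` has at most as many elements as `α`. -/
lemma two_torsion_card {A B : Type*} [AddCommGroup A] [AddCommGroup B] {α β : Type*} [Fintype α]
    [Fintype β] (g : α → A) (hg : ∀ x : A, 2 • x = 0 → ∃ a, g a = x) (h : β → B)
    (hh : Function.Injective h) (hh2 : ∀ b, 2 • h b = 0)
    (e : Nonempty (AddCommGroup.torsion A ≃+ AddCommGroup.torsion B)) :
    Fintype.card β ≤ Fintype.card α := by
  obtain ⟨e⟩ := e
  have hmem : ∀ b, h b ∈ AddCommGroup.torsion B := fun b =>
    isOfFinAddOrder_iff_nsmul_eq_zero.mpr ⟨2, by norm_num, hh2 b⟩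
  have key : ∀ b, ∃ a, g a = (e.symm ⟨h b, hmem b⟩ : A) := by
    intro b
    apply hg
    have : 2 • e.symm ⟨h b, hmem b⟩ = 0 := by
      rw [← map_nsmul]
      have : 2 • (⟨h b, hmem b⟩ : AddCommGroup.torsion B) = 0 := by
        ext
        exact hh2 b
      rw [this, map_zero]
    exact congrArg Subtype.val this
  choose k hk using key
  apply Fintype.card_le_of_injective k
  intro b b' hbb
  have h1 : (e.symm ⟨h b, hmem b⟩ : A) = (e.symm ⟨h b', hmem b'⟩ : A) := by
    rw [← hk, ← hk, hbb]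
  have h2 := e.symm.injective (Subtype.ext h1)
  exact hh (congrArg Subtype.val h2)

end Pool.Agent.Q250.Sand
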